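import Mathlib

set_option autoImplicit false

/-!
# Finite graphs with multiple edges, loops and semi-edges, given by their edge-ends
-/

namespace Pool.Agent.Q296.SC

open Finset

/-- A finite graph with multiple edges, loops and semi-edges: `V` is the set of the vertices, `D` the
set of the edge-ends, `beg d` the vertex at which the edge-end `d` is, and `inv d` the other end of
the edge of `d`; `inv d = d` if this edge is a semi-edge.  A loop is an edge whose two ends `d` and
`inv d` are different and at the same vertex. -/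
structure MGraph where
  /-- vertices -/
  V : Type
  /-- edge-ends -/
  D : Type
  fV : Fintype V
  fD : Fintype D
  /-- the vertex of an edge-end -/
  beg : D → V
  /-- the other end of the edge -/
  inv : D → D
  inv_inv : ∀ d, inv (inv d) = d

attribute [instance] MGraph.fV MGraph.fD

namespace MGraph

/-- Every vertex has exactly three edge-ends. -/
def Cubic (A : MGraph) : Prop := ∀ v : A.V, Nat.card {d : A.D // A.beg d = v} = 3

/-- Any two vertices are joined by a walk, and there is a vertex. -/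
def Connected (A : MGraph) : Prop := Nonempty A.V ∧
  ∀ u v : A.V, Relation.ReflTransGen (fun x y => ∃ d, A.beg d = x ∧ A.beg (A.inv d) = y) u v

/-- The edges can be coloured with three colours such that the three edge-ends at each vertex have
different colours; a colouring of the edges is a colouring of the edge-ends for which the two ends of
each edge have the same colour. -/
def Colourable (A : MGraph) : Prop := ∃ c : A.D → Fin 3, (∀ d, c (A.inv d) = c d) ∧
  ∀ d d', A.beg d = A.beg d' → d ≠ d' → c d ≠ c d'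

end MGraph

open MGraph

/-- a covering map of graphs -/
structure Cov (H A : MGraph) where
  f : H.V → A.V
  F : H.D → A.D
  beg : ∀ d, A.beg (F d) = f (H.beg d)
  inv : ∀ d, F (H.inv d) = A.inv (F d)
  bij : ∀ w a, A.beg a = f w → ∃! d, H.beg d = w ∧ F d = a

/-- composition -/
def Cov.comp {G H A : MGraph} (p : Cov G H) (q : Cov H A) : Cov G A where
  f := q.f ∘ p.f
  F := q.F ∘ p.F
  beg d := by simp [q.beg, p.beg]
  inv d := by simp [q.inv, p.inv]
  bij w a ha := by
    obtain ⟨d, ⟨h1, h2⟩, h3⟩ := q.bij (p.f w) a ha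
    obtain ⟨e, ⟨h4, h5⟩, h6⟩ := p.bij w d h1
    refine ⟨e, ⟨h4, by simp [h5, h2]⟩, ?_⟩
    rintro e' ⟨h7, h8⟩
    refine h6 e' ⟨h7, ?_⟩
    exact h3 (p.F e') ⟨by rw [p.beg, h7], h8⟩

theorem Cov.cubic {H A : MGraph} (p : Cov H A) (hA : A.Cubic) : H.Cubic := by
  intro w
  rw [← hA (p.f w)]
  refine Nat.card_congr (Equiv.ofBijective
    (fun d : {d : H.D // H.beg d = w} => (⟨p.F d.1, by rw [p.beg, d.2]⟩ : {a // A.beg a = p.f w})) ⟨?_, ?_⟩)
  · rintro ⟨d, hd⟩ ⟨d', hd'⟩ h
    have h1 : p.F d = p.F d' := congrArg Subtype.val h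
    obtain ⟨e, -, h3⟩ := p.bij w (p.F d) (by rw [p.beg, hd])
    have h4 := h3 d ⟨hd, rfl⟩
    have h5 := h3 d' ⟨hd', h1.symm⟩
    exact Subtype.ext (h4.trans h5.symm)
  · rintro ⟨a, ha⟩
    obtain ⟨d, ⟨h1, h2⟩, -⟩ := p.bij w a ha
    exact ⟨⟨d, h1⟩, Subtype.ext h2⟩

/-- simple: no semi-edges, loops, multiple edges -/
def Simp (A : MGraph) : Prop := (∀ d, A.beg (A.inv d) ≠ A.beg d) ∧
  ∀ d d', A.beg d = A.beg d' → A.beg (A.inv d) = A.beg (A.inv d') → d = d'

theorem Simp.inv_ne {A : MGraph} (h : Simp A) (d : A.D) : A.inv d ≠ d := fun h1 =>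
  h.1 d (by rw [h1])

theorem Cov.simp {H A : MGraph} (p : Cov H A) (hA : Simp A) : Simp H := by
  constructor
  · intro d h
    apply hA.1 (p.F d)
    rw [← p.inv, p.beg, p.beg, h]
  · intro d d' h1 h2
    have h3 := hA.2 (p.F d) (p.F d') (by rw [p.beg, p.beg, h1])
      (by rw [← p.inv, ← p.inv, p.beg, p.beg, h2])
    obtain ⟨e, -, h4⟩ := p.bij (H.beg d) (p.F d) (p.beg d)
    rw [h4 d ⟨rfl, rfl⟩, h4 d' ⟨h1.symm, h3.symm⟩]

open Classical in
/-- the darts leaving a set of vertices -/
noncomputable def bd (A : MGraph) (X : A.V → Prop) : Finset A.D :=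
  univ.filter fun d => X (A.beg d) ∧ ¬ X (A.beg (A.inv d))

theorem mem_bd {A : MGraph} {X : A.V → Prop} {d : A.D} :
    d ∈ bd A X ↔ X (A.beg d) ∧ ¬ X (A.beg (A.inv d)) := by
  simp [bd]

/-- connected by cuts -/
def Conn (A : MGraph) : Prop := ∀ X : A.V → Prop, (∃ v, X v) → (∃ v, ¬ X v) → ∃ d, d ∈ bd A X

/-- no cuts with at most one edge -/
def Conn2 (A : MGraph) : Prop := ∀ X : A.V → Prop, (∃ v, X v) → (∃ v, ¬ X v) → 2 ≤ (bd A X).card

/-- a proper colouring -/
def Proper (A : MGraph) (c : A.D → Fin 3) : Prop := (∀ d, c (A.inv d) = c d) ∧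
  ∀ d d', A.beg d = A.beg d' → d ≠ d' → c d ≠ c d'

theorem Proper.exists {A : MGraph} (hA : A.Cubic) {c : A.D → Fin 3} (hc : Proper A c) (v : A.V)
    (k : Fin 3) : ∃ d, A.beg d = v ∧ c d = k := by
  have hinj : Function.Injective (fun d : {d : A.D // A.beg d = v} => c d.1) := by
    rintro ⟨d, hd⟩ ⟨d', hd'⟩ h
    by_contra hne
    exact hc.2 d d' (hd.trans hd'.symm) (fun h1 => hne (Subtype.ext h1)) h
  have hcard : Nat.card {d : A.D // A.beg d = v} = Nat.card (Fin 3) := by
    rw [hA v, Nat.card_eq_fintype_card, Fintype.card_fin]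
  have hbij := (Nat.bijective_iff_injective_and_card _).2 ⟨hinj, hcard⟩
  obtain ⟨⟨d, hd⟩, h⟩ := hbij.2 k
  exact ⟨d, hd, h⟩

open Classical in
/-- the parity lemma -/
theorem parity {A : MGraph} (hA : A.Cubic) (hs : ∀ d, A.inv d ≠ d) {c : A.D → Fin 3}
    (hc : Proper A c) (X : A.V → Prop) (k : Fin 3) :
    (((univ.filter X).card : ℕ) : ZMod 2) = ((bd A X).filter fun d => c d = k).card := by
  have h1 : (univ.filter X).card = (univ.filter fun d : A.D => X (A.beg d) ∧ c d = k).card := by
    symm
    refine Finset.card_bij (fun d _ => A.beg d) ?_ ?_ ?_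
    · intro d hd
      simp only [mem_filter, mem_univ, true_and] at hd ⊢
      exact hd.1
    · intro d hd d' hd' h
      simp only [mem_filter, mem_univ, true_and] at hd hd'
      by_contra hne
      exact hc.2 d d' h hne (hd.2.trans hd'.2.symm)
    · intro v hv
      simp only [mem_filter, mem_univ, true_and] at hv
      obtain ⟨d, h1, h2⟩ := hc.exists hA v k
      exact ⟨d, by simp [h1, h2, hv], h1⟩
  have h2 : (univ.filter fun d : A.D => X (A.beg d) ∧ c d = k) =
      ((bd A X).filter fun d => c d = k) ∪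
        (univ.filter fun d : A.D => (X (A.beg d) ∧ X (A.beg (A.inv d))) ∧ c d = k) := by
    ext d
    simp only [mem_filter, mem_univ, true_and, mem_union, mem_bd]
    tauto
  have h3 : Disjoint ((bd A X).filter fun d => c d = k)
      (univ.filter fun d : A.D => (X (A.beg d) ∧ X (A.beg (A.inv d))) ∧ c d = k) := by
    rw [Finset.disjoint_left]
    intro d hd hd'
    simp only [mem_filter, mem_univ, true_and, mem_bd] at hd hd'
    exact hd.1.2 hd'.1.2
  have h4 : (((univ.filter fun d : A.D =>
      (X (A.beg d) ∧ X (A.beg (A.inv d))) ∧ c d = k).card : ℕ) : ZMod 2) = 0 := by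
    rw [Finset.card_eq_sum_ones, Nat.cast_sum]
    refine Finset.sum_involution (fun d _ => A.inv d) ?_ ?_ ?_ ?_
    · intro d _
      decide
    · intro d _ _
      exact hs d
    · intro d hd
      simp only [mem_filter, mem_univ, true_and] at hd ⊢
      rw [A.inv_inv, hc.1]
      tauto
    · intro d _
      exact A.inv_inv d
  rw [h1, h2, card_union_of_disjoint h3, Nat.cast_add, h4, add_zero]

/-- two boundary darts have the same colour -/
theorem two_cut {A : MGraph} (hA : A.Cubic) (hs : ∀ d, A.inv d ≠ d) {c : A.D → Fin 3}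
    (hc : Proper A c) (X : A.V → Prop) {a b : A.D} (hab : a ≠ b)
    (h : ∀ d, d ∈ bd A X ↔ d = a ∨ d = b) : c a = c b := by
  classical
  by_contra hne
  have h1 : bd A X = {a, b} := by
    ext d
    simp [h]
  obtain ⟨k, hk1, hk2⟩ : ∃ k : Fin 3, k ≠ c a ∧ k ≠ c b := by
    generalize c a = x
    generalize c b = y
    revert x y
    decide
  have e1 := parity hA hs hc X (c a)
  have e2 := parity hA hs hc X k
  rw [h1] at e1 e2
  have f1 : (({a, b} : Finset A.D).filter fun d => c d = c a) = {a} := by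
    ext d
    simp only [mem_filter, mem_insert, mem_singleton]
    constructor
    · rintro ⟨h5 | h5, h6⟩
      · exact h5
      · rw [h5] at h6
        exact absurd h6.symm hne
    · rintro h5
      simp [h5]
  have f2 : (({a, b} : Finset A.D).filter fun d => c d = k) = ∅ := by
    ext d
    simp only [mem_filter, mem_insert, mem_singleton, notMem_empty, iff_false]
    rintro ⟨h5 | h5, h6⟩
    · rw [h5] at h6
      exact hk1 h6.symm
    · rw [h5] at h6
      exact hk2 h6.symm
  rw [f1] at e1
  rw [f2] at e2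
  rw [e1] at e2
  simp at e2

end Pool.Agent.Q296.SC
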