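import Pool.Agent.Q296.SC.Pet

set_option autoImplicit false

/-!
# The cover without one-edge cuts
-/

namespace Pool.Agent.Q296.SC

open Finset

theorem ta_ta (s : Sh) : ta (ta s) = s := by
  revert s
  decide

theorem sg_sg (s : Sh) : sg (sg⁻¹ s) = s := by
  revert s
  decide

namespace Cut

variable {A : MGraph} (T : Cut A)

open Classical in
/-- the voltages -/
noncomputable def vol (d : A.D) : Equiv.Perm Sh :=
  if d = T.g then sg else if d = A.inv T.g then sg⁻¹ else
    if ¬ T.M d ∧ ¬ T.S (A.beg d) then ta else 1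

theorem vol_g : T.vol T.g = sg := by simp [vol]

theorem vol_g' : T.vol (A.inv T.g) = sg⁻¹ := by
  simp [vol, T.hS.inv_ne T.g]

theorem vol_t {d : A.D} (h1 : ¬ T.M d) (h2 : ¬ T.S (A.beg d)) : T.vol d = ta := by
  have h3 : d ≠ T.g := by
    rintro rfl
    rw [T.hg] at h2
    exact h2 T.Sb
  have h4 : d ≠ A.inv T.g := by
    rintro rfl
    exact h2 T.Sg
  unfold vol
  rw [if_neg h3, if_neg h4, if_pos ⟨h1, h2⟩]

theorem vol_M {d : A.D} (h : T.M d) : T.vol d = 1 := by
  have h3 : d ≠ T.g := fun h1 => T.Mg (h1 ▸ h)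
  have h4 : d ≠ A.inv T.g := fun h1 => T.Mg ((T.Mi _).1 (h1 ▸ h))
  unfold vol
  rw [if_neg h3, if_neg h4, if_neg (fun h5 => h5.1 h)]

theorem vol_S {d : A.D} (h : T.S (A.beg d)) (h3 : d ≠ T.g) (h4 : d ≠ A.inv T.g) :
    T.vol d = 1 := by
  unfold vol
  rw [if_neg h3, if_neg h4, if_neg (fun h5 => h5.2 h)]

theorem side {d : A.D} (h : ¬ T.M d) : T.S (A.beg (A.inv d)) ↔ T.S (A.beg d) := by
  constructor
  · intro h1
    by_contra h2
    have h3 := (T.he (A.inv d)).1 (mem_bd.2 ⟨h1, by rwa [A.inv_inv]⟩)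
    exact h ((T.Mi d).1 (h3 ▸ T.Me))
  · intro h1
    by_contra h2
    have h3 := (T.he d).1 (mem_bd.2 ⟨h1, h2⟩)
    exact h (h3 ▸ T.Me)

theorem vol_inv (d : A.D) : T.vol (A.inv d) = (T.vol d)⁻¹ := by
  by_cases h1 : d = T.g
  · rw [h1, vol_g, vol_g']
  · by_cases h2 : d = A.inv T.g
    · rw [h2, A.inv_inv, vol_g, vol_g', inv_inv]
    · by_cases h3 : T.M d
      · rw [T.vol_M h3, T.vol_M (T.Minv d h3), inv_one]
      · by_cases h4 : T.S (A.beg d)
        · rw [T.vol_S h4 h1 h2, inv_one]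
          refine T.vol_S ((T.side h3).2 h4) (fun h5 => h2 ?_) (fun h5 => h1 ?_)
          · rw [← h5, A.inv_inv]
          · rw [← A.inv_inv d, h5, A.inv_inv]
        · rw [T.vol_t h3 h4, ta_inv]
          exact T.vol_t (fun h5 => h3 ((T.Mi d).1 h5)) (fun h5 => h4 ((T.side h3).1 h5))

/-- the cover -/
noncomputable abbrev cover : MGraph := vcov A T.vol T.vol_inv

/-- sets of vertices of the cover on which nothing changes along the edges -/
theorem closed_triv (X : A.V × Sh → Prop)
    (h : ∀ d s, X (A.beg d, s) → X (A.beg (A.inv d), T.vol d s)) (x y : A.V × Sh) (hx : X x) :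
    X y := by
  have h1 : ∀ s v w, X (v, s) → X (w, s) := by
    intro s v w hv
    by_contra hw
    obtain ⟨d, hd, hM⟩ := T.Msp (fun v => X (v, s)) ⟨v, hv⟩ ⟨w, hw⟩
    have h2 := mem_bd.1 hd
    have h3 := h d s h2.1
    rw [T.vol_M hM] at h3
    exact h2.2 h3
  obtain ⟨t, ht1, ht2, ht3, ht4⟩ := T.far (fun v => ¬ T.S v)
    ⟨A.inv T.e, fun x => by
      rw [bd_flip, T.he]
      constructor
      · intro h
        rw [← h, A.inv_inv]
      · rintro rfl
        exact A.inv_inv _⟩ (fun h => h T.Sb)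
  have hg : ∀ s, X (A.beg T.e, s) → X (A.beg T.e, sg s) := by
    intro s hs
    have h2 := h T.g s (by rw [T.hg]; exact hs)
    rw [vol_g] at h2
    exact h1 _ _ _ h2
  have ht : ∀ s, X (A.beg T.e, s) → X (A.beg T.e, ta s) := by
    intro s hs
    have h2 := h t s (h1 _ _ _ hs)
    rw [T.vol_t ht1 ht4] at h2
    exact h1 _ _ _ h2
  have h3 := gen (fun s => X (A.beg T.e, s)) hg ht x.2 y.2 (h1 _ _ _ hx)
  exact h1 _ _ _ h3

theorem conn2 : Conn2 T.cover := by
  classical
  rintro X ⟨x, hx⟩ ⟨y, hy⟩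
  by_contra hcard
  push Not at hcard
  have hmem : ∀ d s, ((d, s) : T.cover.D) ∈ bd T.cover X ↔
      X (A.beg d, s) ∧ ¬ X (A.beg (A.inv d), T.vol d s) := fun d s => mem_bd
  have huniq : ∀ a ∈ bd T.cover X, ∀ b ∈ bd T.cover X, a = b :=
    card_le_one.1 (by omega)
  by_cases hempty : ∃ a, a ∈ bd T.cover X
  swap
  · apply hy
    refine T.closed_triv X (fun d s hd => ?_) x y hx
    by_contra h
    exact hempty ⟨(d, s), (hmem d s).2 ⟨hd, h⟩⟩
  obtain ⟨⟨e', s'⟩, he'⟩ := hempty
  have hes := (hmem e' s').1 he'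
  have hstep : ∀ d s, (d ≠ e' ∨ s ≠ s') → X (A.beg d, s) → X (A.beg (A.inv d), T.vol d s) := by
    intro d s h1 h2
    by_contra h3
    have h4 := huniq _ ((hmem d s).2 ⟨h2, h3⟩) _ he'
    rcases h1 with h1 | h1
    · exact h1 (congrArg Prod.fst h4)
    · exact h1 (congrArg Prod.snd h4)
  have hback : ∀ d s, d ≠ A.inv e' → X (A.beg (A.inv d), T.vol d s) → X (A.beg d, s) := by
    intro d s h1 h2
    have h3 := hstep (A.inv d) (T.vol d s) (Or.inl fun h4 => h1 (by rw [← h4, A.inv_inv])) h2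
    rw [A.inv_inv, T.vol_inv] at h3
    simpa using h3
  have heq : ∀ d s, d ≠ e' → d ≠ A.inv e' → (X (A.beg d, s) ↔ X (A.beg (A.inv d), T.vol d s)) :=
    fun d s h1 h2 => ⟨hstep d s (Or.inl h1), hback d s h2⟩
  let cnt : A.V → ℕ := fun v => (univ.filter fun s => X (v, s)).card
  have hcnt : ∀ d, d ≠ e' → d ≠ A.inv e' → cnt (A.beg d) = cnt (A.beg (A.inv d)) := by
    intro d h1 h2
    refine card_bij (fun s _ => T.vol d s) ?_ ?_ ?_
    · intro s hs
      simp only [mem_filter, mem_univ, true_and] at hs ⊢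
      exact (heq d s h1 h2).1 hs
    · intro s _ s2 _ h
      exact (T.vol d).injective h
    · intro s hs
      simp only [mem_filter, mem_univ, true_and] at hs
      refine ⟨(T.vol d)⁻¹ s, ?_, by simp⟩
      simp only [mem_filter, mem_univ, true_and]
      exact (heq d _ h1 h2).2 (by simpa using hs)
  have hcnt2 : cnt (A.beg e') ≠ cnt (A.beg (A.inv e')) := by
    have h1 : cnt (A.beg (A.inv e')) < cnt (A.beg e') := by
      have h2 : (univ.filter fun s => X (A.beg (A.inv e'), s)).card ≤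
          ((univ.filter fun s => X (A.beg e', s)).erase s').card := by
        refine card_le_card_of_injOn (fun s => T.vol (A.inv e') s) ?_ ?_
        · intro s hs
          simp only [coe_filter, mem_univ, true_and, Set.mem_ofPred_eq] at hs
          simp only [coe_erase, coe_filter, mem_univ, true_and, Set.mem_sdiff, Set.mem_ofPred_eq,
            Set.mem_singleton_iff]
          have h3 := hstep (A.inv e') s (Or.inl (T.hS.inv_ne e')) hs
          rw [A.inv_inv] at h3
          refine ⟨h3, fun h4 => hes.2 ?_⟩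
          rw [← h4, T.vol_inv]
          simpa using hs
        · intro s _ s2 _ h
          exact (T.vol (A.inv e')).injective h
      have h3 : s' ∈ univ.filter fun s => X (A.beg e', s) := by simp [hes.1]
      rw [card_erase_of_mem h3] at h2
      have h4 := card_pos.2 ⟨s', h3⟩
      show (univ.filter fun s => X (A.beg (A.inv e'), s)).card < (univ.filter fun s => X (A.beg e', s)).card
      omega
    exact h1.ne'
  -- the exceptional edge is in `M`
  have hMe : T.M e' := by
    by_contra hMe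
    have hMe' : ¬ T.M (A.inv e') := fun h => hMe ((T.Mi e').1 h)
    obtain ⟨d, hd, hM⟩ := T.Msp (fun v => cnt v = cnt (A.beg e')) ⟨_, rfl⟩
      ⟨A.beg (A.inv e'), fun h => hcnt2 h.symm⟩
    have h2 := mem_bd.1 hd
    apply h2.2
    rw [← hcnt d (fun h => hMe (h ▸ hM)) (fun h => hMe' (h ▸ hM))]
    exact h2.1
  have hvol := T.vol_M hMe
  rw [hvol, Equiv.Perm.one_apply] at hes
  -- the sets over the two ends of the exceptional edge differ by one element
  have hdiff : ∀ s, s ≠ s' → (X (A.beg e', s) ↔ X (A.beg (A.inv e'), s)) := by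
    intro s hs
    constructor
    · intro h
      have := hstep e' s (Or.inr hs) h
      rwa [hvol, Equiv.Perm.one_apply] at this
    · intro h
      have := hback e' s (fun h => T.hS.inv_ne e' h.symm) (by rwa [hvol, Equiv.Perm.one_apply])
      exact this
  -- all sets are of one of two forms
  have hform : ∀ v, (∀ s, X (v, s) ↔ X (A.beg e', s)) ∨ ∀ s, X (v, s) ↔ X (A.beg (A.inv e'), s) := by
    intro v
    by_contra hv
    obtain ⟨d, hd, hM⟩ := T.Msp (fun v => (∀ s, X (v, s) ↔ X (A.beg e', s)) ∨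
      ∀ s, X (v, s) ↔ X (A.beg (A.inv e'), s)) ⟨A.beg e', Or.inl fun _ => Iff.rfl⟩ ⟨v, hv⟩
    have h2 := mem_bd.1 hd
    apply h2.2
    by_cases h3 : d = e'
    · rw [h3]
      exact Or.inr fun _ => Iff.rfl
    · by_cases h4 : d = A.inv e'
      · rw [h4, A.inv_inv]
        exact Or.inl fun _ => Iff.rfl
      · have h5 : ∀ s, X (A.beg d, s) ↔ X (A.beg (A.inv d), s) := by
          intro s
          have := heq d s h3 h4
          rwa [T.vol_M hM, Equiv.Perm.one_apply] at this
        rcases h2.1 with h6 | h6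
        · exact Or.inl fun s => (h5 s).symm.trans (h6 s)
        · exact Or.inr fun s => (h5 s).symm.trans (h6 s)
  have hform2 : ∀ v w, (∀ s, X (v, s) ↔ X (w, s)) → cnt v = cnt w := by
    intro v w h
    show (univ.filter fun s => X (v, s)).card = (univ.filter fun s => X (w, s)).card
    congr 1
    ext s
    simp [h s]
  -- vertices with the same number have the same set
  have hsame : ∀ v w, cnt v = cnt w → ∀ s, X (v, s) ↔ X (w, s) := by
    intro v w hvw s
    rcases hform v with h1 | h1 <;> rcases hform w with h2 | h2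
    · exact (h1 s).trans (h2 s).symm
    · exact absurd ((hform2 _ _ h1).symm.trans (hvw.trans (hform2 _ _ h2))) hcnt2
    · exact absurd ((hform2 _ _ h2).symm.trans (hvw.symm.trans (hform2 _ _ h1))) hcnt2
    · exact (h1 s).trans (h2 s).symm
  -- the far side
  have hend : ∀ d, cnt (A.beg d) ≠ cnt (A.beg (A.inv d)) → d = e' ∨ d = A.inv e' := by
    intro d h
    by_contra h2
    push Not at h2
    exact h (hcnt d h2.1 h2.2)
  have hside : ∃ w w' : A.V, (∀ s, s ≠ s' → (X (w, s) ↔ X (w', s))) ∧ ¬ (X (w, s') ↔ X (w', s')) ∧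
      cnt w' = cnt (A.beg T.e) ∧ cnt w ≠ cnt (A.beg T.e) ∧
      One A (fun v => cnt v ≠ cnt (A.beg T.e)) := by
    rcases hform (A.beg T.e) with h1 | h1
    · have h2 := hform2 _ _ h1
      refine ⟨A.beg (A.inv e'), A.beg e', fun s hs => (hdiff s hs).symm, fun h => hes.2 (h.2 hes.1),
        h2.symm, fun h => hcnt2 (h2.symm.trans h.symm), A.inv e', fun d => ?_⟩
      rw [mem_bd]
      constructor
      · rintro ⟨h3, h4⟩
        push Not at h4
        rcases hend d (fun h5 => h3 (h5.trans h4)) with h5 | h5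
        · exfalso
          rw [h5] at h3
          exact h3 h2.symm
        · exact h5
      · rintro rfl
        rw [A.inv_inv]
        exact ⟨fun h => hcnt2 (h2.symm.trans h.symm), fun h => h h2.symm⟩
    · have h2 := hform2 _ _ h1
      refine ⟨A.beg e', A.beg (A.inv e'), fun s hs => hdiff s hs, fun h => hes.2 (h.1 hes.1),
        h2.symm, fun h => hcnt2 (h.trans h2), e', fun d => ?_⟩
      rw [mem_bd]
      constructor
      · rintro ⟨h3, h4⟩
        push Not at h4
        rcases hend d (fun h5 => h3 (h5.trans h4)) with h5 | h5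
        · exact h5
        · exfalso
          rw [h5] at h3
          exact h3 h2.symm
      · rintro rfl
        exact ⟨fun h => hcnt2 (h.trans h2), fun h => h h2.symm⟩
  obtain ⟨w, w', hw1, hw2, hw3, hw4, hw5⟩ := hside
  obtain ⟨t, ht1, ht2, ht3, ht4⟩ := T.far _ hw5 (fun h => h rfl)
  -- invariance
  have hg1 : T.g ≠ e' := fun h => T.Mg (h ▸ hMe)
  have hg2 : T.g ≠ A.inv e' := fun h => T.Mg (h ▸ (T.Mi e').2 hMe)
  have ht5 : t ≠ e' := fun h => ht1 (h ▸ hMe)
  have ht6 : t ≠ A.inv e' := fun h => ht1 (h ▸ (T.Mi e').2 hMe)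
  have hZ : ∀ s, X (w', s) → X (w', sg s) := by
    intro s hs
    have h1 := heq T.g s hg1 hg2
    rw [vol_g, T.hg] at h1
    have h2 := (h1.1 ((hsame _ _ hw3 s).1 hs))
    have h3 : cnt (A.beg (A.inv T.g)) = cnt w' := by
      rw [hw3, ← hcnt T.g hg1 hg2, T.hg]
    exact (hsame _ _ h3 _).1 h2
  have hcw : ∀ v, cnt v ≠ cnt (A.beg T.e) → cnt v = cnt w := by
    intro v hv
    have hx1 : ∀ v, cnt v = cnt (A.beg e') ∨ cnt v = cnt (A.beg (A.inv e')) := fun v =>
      (hform v).imp (hform2 _ _) (hform2 _ _)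
    rcases hx1 v with h1 | h1 <;> rcases hx1 w with h2 | h2 <;> rcases hx1 (A.beg T.e) with h3 | h3
    · exact absurd (h1.trans h3.symm) hv
    · exact h1.trans h2.symm
    · exact absurd (h1.trans h3.symm) hv
    · exact absurd (h2.trans h3.symm) hw4
    · exact absurd (h2.trans h3.symm) hw4
    · exact absurd (h1.trans h3.symm) hv
    · exact h1.trans h2.symm
    · exact absurd (h1.trans h3.symm) hv
  have hY : ∀ s, X (w, s) → X (w, ta s) := by
    intro s hs
    have h1 := heq t s ht5 ht6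
    rw [T.vol_t ht1 ht4] at h1
    have h2 := h1.1 ((hsame _ _ (hcw _ ht2) s).2 hs)
    exact (hsame _ _ (hcw _ ht3) _).1 h2
  exact hw2 (fin_lem (fun s => X (w, s)) (fun s => X (w', s)) hY hZ s' hw1)

theorem not_col : ¬ T.cover.Colourable := by
  classical
  rintro ⟨c, hc1, hc2⟩
  have hCub := (vcovCov A T.vol T.vol_inv).cubic T.hA
  have hne := ((vcovCov A T.vol T.vol_inv).simp T.hS).inv_ne
  have hinv : ∀ d s, c (A.inv d, T.vol d s) = c (d, s) := fun d s => hc1 (d, s)
  have hegne : A.inv T.g ≠ T.e := by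
    intro h
    have h1 := T.Sr
    rw [← h, A.inv_inv, T.hg] at h1
    exact h1 T.Sb
  have hehne : A.inv T.h ≠ T.e := by
    intro h
    have h1 := T.Sr
    rw [← h, A.inv_inv, T.hh] at h1
    exact h1 T.Sb
  have hhg : T.h ≠ A.inv T.g := by
    intro h
    apply T.hS.1 T.g
    rw [← h, T.hh, T.hg]
  have hvh : T.vol T.h = 1 := T.vol_S (by rw [T.hh]; exact T.Sb) (fun h => T.gh h.symm) hhg
  have hve : T.vol T.e = 1 := T.vol_M T.Me
  -- the far side of the bridge
  have h1 : ∀ s, c (A.inv T.e, s) = c (A.inv T.e, ta s) := by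
    intro s
    refine two_cut hCub hne ⟨hc1, hc2⟩ (fun x : A.V × Sh => ¬ T.S x.1 ∧ (x.2 = s ∨ x.2 = ta s)) ?_ ?_
    · intro h
      exact ta_ne s (congrArg Prod.snd h).symm
    · rintro ⟨d, s2⟩
      refine mem_bd.trans ?_
      show ((¬ T.S (A.beg d) ∧ (s2 = s ∨ s2 = ta s)) ∧
        ¬ (¬ T.S (A.beg (A.inv d)) ∧ (T.vol d s2 = s ∨ T.vol d s2 = ta s))) ↔
          ((d, s2) : A.D × Sh) = (A.inv T.e, s) ∨ ((d, s2) : A.D × Sh) = (A.inv T.e, ta s)
      constructor
      · rintro ⟨⟨h1, h2⟩, h3⟩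
        have h4 : T.vol d s2 = s ∨ T.vol d s2 = ta s := by
          by_cases hM : T.M d
          · rw [T.vol_M hM, Equiv.Perm.one_apply]
            exact h2
          · rw [T.vol_t hM h1]
            rcases h2 with h2 | h2
            · right
              rw [h2]
            · left
              rw [h2]
              exact ta_ta s
        have h5 : T.S (A.beg (A.inv d)) := by
          by_contra h6
          exact h3 ⟨h6, h4⟩
        have h6 := (T.he (A.inv d)).1 (mem_bd.2 ⟨h5, by rwa [A.inv_inv]⟩)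
        have h7 : d = A.inv T.e := by rw [← h6, A.inv_inv]
        rcases h2 with h2 | h2
        · left
          rw [h7, h2]
        · right
          rw [h7, h2]
      · have h5 : ∀ s3, (s3 = s ∨ s3 = ta s) → ((d, s2) : A.D × Sh) = (A.inv T.e, s3) →
            ((¬ T.S (A.beg d) ∧ (s2 = s ∨ s2 = ta s)) ∧
              ¬ (¬ T.S (A.beg (A.inv d)) ∧ (T.vol d s2 = s ∨ T.vol d s2 = ta s))) := by
          intro s3 hs3 h
          have h6 : d = A.inv T.e := congrArg Prod.fst h
          have h7 : s2 = s3 := congrArg Prod.snd h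
          rw [h6, h7, A.inv_inv]
          exact ⟨⟨T.Sr, hs3⟩, fun h8 => h8.1 T.Sb⟩
        rintro (h | h)
        · exact h5 s (Or.inl rfl) h
        · exact h5 (ta s) (Or.inr rfl) h
  have h2 : ∀ s, c (T.e, ta s) = c (T.e, s) := by
    intro s
    have e1 := hinv T.e s
    have e2 := hinv T.e (ta s)
    rw [hve, Equiv.Perm.one_apply] at e1 e2
    exact e2.symm.trans ((h1 s).symm.trans e1)
  -- the near side without `b`
  have h3 : ∀ s, c (A.inv T.g, s) = c (A.inv T.h, s) := by
    intro s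
    refine two_cut hCub hne ⟨hc1, hc2⟩
      (fun x : A.V × Sh => (T.S x.1 ∧ x.1 ≠ A.beg T.e) ∧ x.2 = s) ?_ ?_
    · intro h
      have h4 : A.inv T.g = A.inv T.h := congrArg Prod.fst h
      apply T.gh
      rw [← A.inv_inv T.g, h4, A.inv_inv]
    · rintro ⟨d, s2⟩
      refine mem_bd.trans ?_
      show (((T.S (A.beg d) ∧ A.beg d ≠ A.beg T.e) ∧ s2 = s) ∧
        ¬ ((T.S (A.beg (A.inv d)) ∧ A.beg (A.inv d) ≠ A.beg T.e) ∧ T.vol d s2 = s)) ↔
          ((d, s2) : A.D × Sh) = (A.inv T.g, s) ∨ ((d, s2) : A.D × Sh) = (A.inv T.h, s)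
      constructor
      · rintro ⟨⟨⟨h4, h5⟩, h6⟩, h7⟩
        have h8 : d ≠ T.g := fun h => h5 (by rw [h, T.hg])
        by_cases h9 : d = A.inv T.g
        · left
          rw [h9, h6]
        · right
          rw [T.vol_S h4 h8 h9, Equiv.Perm.one_apply] at h7
          have h10 : T.S (A.beg (A.inv d)) := by
            by_contra h11
            have := (T.he d).1 (mem_bd.2 ⟨h4, h11⟩)
            exact h5 (by rw [this])
          have h11 : A.beg (A.inv d) = A.beg T.e := by
            by_contra h12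
            exact h7 ⟨⟨h10, h12⟩, h6⟩
          rcases T.hall _ h11 with h12 | h12 | h12
          · exfalso
            have h13 : d = A.inv T.e := by rw [← h12, A.inv_inv]
            rw [h13] at h4
            exact T.Sr h4
          · exfalso
            apply h9
            rw [← h12, A.inv_inv]
          · rw [← h12, A.inv_inv, h6]
      · rintro (h | h)
        · have h6 : d = A.inv T.g := congrArg Prod.fst h
          have h7 : s2 = s := congrArg Prod.snd h
          rw [h6, h7, A.inv_inv]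
          refine ⟨⟨⟨T.Sg, ?_⟩, rfl⟩, fun h8 => h8.1.2 T.hg⟩
          rw [← T.hg]
          exact T.hS.1 T.g
        · have h6 : d = A.inv T.h := congrArg Prod.fst h
          have h7 : s2 = s := congrArg Prod.snd h
          rw [h6, h7, A.inv_inv]
          refine ⟨⟨⟨T.Shh, ?_⟩, rfl⟩, fun h8 => h8.1.2 T.hh⟩
          rw [← T.hh]
          exact T.hS.1 T.h
  have h4 : ∀ s, c (T.h, s) = c (T.g, sg⁻¹ s) := by
    intro s
    have e1 := hinv T.h s
    rw [hvh, Equiv.Perm.one_apply] at e1
    have e2 := hinv T.g (sg⁻¹ s)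
    rw [vol_g, sg_sg] at e2
    exact e1.symm.trans ((h3 s).symm.trans e2)
  refine petersen (fun s => c (T.g, s)) (fun s => c (T.e, s)) h2 fun s => ?_
  have hb : ∀ (d d' : A.D) (s : Sh), A.beg d = A.beg d' → d ≠ d' → c (d, s) ≠ c (d', s) := by
    intro d d' s h5 h6
    exact hc2 (d, s) (d', s) (Prod.ext h5 rfl) (fun h => h6 (congrArg Prod.fst h))
  show c (T.e, s) ≠ c (T.g, s) ∧ c (T.e, s) ≠ c (T.g, sg⁻¹ s) ∧ c (T.g, s) ≠ c (T.g, sg⁻¹ s)
  rw [← h4]
  exact ⟨hb _ _ _ T.hg.symm (fun h => T.ge h.symm), hb _ _ _ T.hh.symm (fun h => T.hne h.symm),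
    hb _ _ _ (T.hg.trans T.hh.symm) T.gh⟩

end Cut

/-- every cubic graph that is not colourable has a simple cover without cuts of at most one edge
that is not colourable -/
theorem exists_cover {A : MGraph} (hA : A.Cubic) (h : ¬ A.Colourable) :
    ∃ (B : MGraph) (_ : Cov B A), Conn2 B ∧ Simp B ∧ ¬ B.Colourable := by
  obtain ⟨B, p, h1, h2, h3⟩ := exists_simple hA h
  by_cases h4 : Conn2 B
  · exact ⟨B, p, h4, h2, h3⟩
  · obtain ⟨T⟩ := exists_cut (p.cubic hA) h2 h1 h4
    exact ⟨T.cover, (vcovCov B T.vol T.vol_inv).comp p, T.conn2,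
      (vcovCov B T.vol T.vol_inv).simp h2, T.not_col⟩

end Pool.Agent.Q296.SC
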