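import Pool.Agent.Q296.SC.Step

set_option autoImplicit false

/-!
# Covers modelled on the Petersen graph
-/

namespace Pool.Agent.Q296.SC

open Finset

/-- the sheets: the vertices of the Petersen graph -/
abbrev Sh : Type := Fin 5 × Bool

/-- the outer and the inner cycle of the Petersen graph -/
def sg : Equiv.Perm Sh where
  toFun x := (x.1 + (if x.2 then 2 else 1), x.2)
  invFun x := (x.1 - (if x.2 then 2 else 1), x.2)
  left_inv := by decide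
  right_inv := by decide

/-- the spokes -/
def ta : Equiv.Perm Sh where
  toFun x := (x.1, !x.2)
  invFun x := (x.1, !x.2)
  left_inv := by decide
  right_inv := by decide

theorem ta_inv : ta⁻¹ = ta := rfl

theorem ta_ne (s : Sh) : ta s ≠ s := by revert s; decide

theorem gen (Z : Sh → Prop) (h1 : ∀ s, Z s → Z (sg s)) (h2 : ∀ s, Z s → Z (ta s)) (s s' : Sh)
    (hs : Z s) : Z s' := by
  have h3 : ∀ n : ℕ, ∀ s, Z s → Z ((sg ^ n) s) := by
    intro n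
    induction n with
    | zero => intro s hs; exact hs
    | succ n ih =>
      intro s hs
      rw [pow_succ', Equiv.Perm.mul_apply]
      exact h1 _ (ih s hs)
  have h4 : ∀ s s' : Sh, (∃ n : Fin 5, s' = (sg ^ n.val) s) ∨ ∃ n : Fin 5, s' = (sg ^ n.val) (ta s) := by
    decide
  rcases h4 s s' with ⟨n, rfl⟩ | ⟨n, rfl⟩
  · exact h3 _ _ hs
  · exact h3 _ _ (h2 _ hs)

theorem sg_const (Z : Sh → Prop) (h1 : ∀ s, Z s → Z (sg s)) (i j : Fin 5) (k : Bool)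
    (hs : Z (i, k)) : Z (j, k) := by
  have h3 : ∀ n : ℕ, ∀ s, Z s → Z ((sg ^ n) s) := by
    intro n
    induction n with
    | zero => intro s hs; exact hs
    | succ n ih =>
      intro s hs
      rw [pow_succ', Equiv.Perm.mul_apply]
      exact h1 _ (ih s hs)
  have h4 : ∀ (i j : Fin 5) (k : Bool), ∃ n : Fin 5, ((j, k) : Sh) = (sg ^ n.val) (i, k) := by
    decide
  obtain ⟨n, hn⟩ := h4 i j k
  rw [hn]
  exact h3 _ _ hs

theorem fin_lem (Y Z : Sh → Prop) (hY : ∀ s, Y s → Y (ta s)) (hZ : ∀ s, Z s → Z (sg s)) (s0 : Sh)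
    (h : ∀ s, s ≠ s0 → (Y s ↔ Z s)) : Y s0 ↔ Z s0 := by
  obtain ⟨i, k⟩ := s0
  have hYi : ∀ j k, Y (j, k) ↔ Y (j, !k) := fun j k =>
    ⟨fun h => hY _ h, fun h => by simpa [ta] using hY _ h⟩
  have hZi : ∀ i j k, Z (i, k) ↔ Z (j, k) := fun i j k => ⟨sg_const Z hZ i j k, sg_const Z hZ j i k⟩
  have e1 : ∀ (i : Fin 5) (k : Bool), ((i + 1, k) : Sh) ≠ (i, k) := by decide
  have e2 : ∀ (i : Fin 5) (k : Bool), ((i + 1, !k) : Sh) ≠ (i, k) := by decide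
  have e3 : ∀ (i : Fin 5) (k : Bool), ((i, !k) : Sh) ≠ (i, k) := by decide
  have f1 := h _ (e1 i k)
  have f2 := h _ (e2 i k)
  have f3 := h _ (e3 i k)
  have g1 := hYi (i + 1) k
  have g2 := hYi i k
  have g3 := hZi (i + 1) i k
  have g4 := hZi (i + 1) i (!k)
  tauto

theorem pet_dec0 : ∀ a0 a1 a2 a3 a4 b0 : Fin 3, a1 ≠ a0 → a2 ≠ a1 → a3 ≠ a2 → a4 ≠ a3 → a0 ≠ a4 →
    a2 + a1 - b0 ≠ b0 → a4 + a3 - (a2 + a1 - b0) ≠ a2 + a1 - b0 →
    a1 + a0 - (a4 + a3 - (a2 + a1 - b0)) ≠ a4 + a3 - (a2 + a1 - b0) →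
    a3 + a2 - (a1 + a0 - (a4 + a3 - (a2 + a1 - b0))) ≠ a1 + a0 - (a4 + a3 - (a2 + a1 - b0)) →
    b0 ≠ a3 + a2 - (a1 + a0 - (a4 + a3 - (a2 + a1 - b0))) →
    a0 + a4 ≠ b0 + (a3 + a2 - (a1 + a0 - (a4 + a3 - (a2 + a1 - b0)))) := by
  decide

theorem pet_dec (a0 a1 : Fin 3) (h1 : a1 ≠ a0) (a2 : Fin 3) (h2 : a2 ≠ a1) (a3 : Fin 3)
    (h3 : a3 ≠ a2) (a4 : Fin 3) (h4 : a4 ≠ a3) (h5 : a0 ≠ a4) (b0 b2 : Fin 3) (k1 : b2 ≠ b0)
    (e1 : a2 + a1 = b2 + b0) (b4 : Fin 3) (k2 : b4 ≠ b2) (e2 : a4 + a3 = b4 + b2) (b1 : Fin 3)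
    (k3 : b1 ≠ b4) (e3 : a1 + a0 = b1 + b4) (b3 : Fin 3) (k4 : b3 ≠ b1) (e4 : a3 + a2 = b3 + b1)
    (k5 : b0 ≠ b3) (e5 : a0 + a4 = b0 + b3) : False := by
  obtain rfl : b2 = a2 + a1 - b0 := by rw [e1]; simp
  obtain rfl : b4 = a4 + a3 - (a2 + a1 - b0) := by rw [e2]; simp
  obtain rfl : b1 = a1 + a0 - (a4 + a3 - (a2 + a1 - b0)) := by rw [e3]; simp
  obtain rfl : b3 = a3 + a2 - (a1 + a0 - (a4 + a3 - (a2 + a1 - b0))) := by rw [e4]; simp
  exact pet_dec0 a0 a1 a2 a3 a4 b0 h1 h2 h3 h4 h5 k1 k2 k3 k4 k5 e5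

theorem third : ∀ m x y : Fin 3, m ≠ x → m ≠ y → x ≠ y → x + y = -m := by decide

/-- the Petersen graph has no 3-edge-colouring -/
theorem petersen (p m : Sh → Fin 3) (hm : ∀ s, m (ta s) = m s)
    (h : ∀ s, m s ≠ p s ∧ m s ≠ p (sg⁻¹ s) ∧ p s ≠ p (sg⁻¹ s)) : False := by
  have h0 : ∀ (i : Fin 5) (k : Bool), sg⁻¹ (i, k) = (i - (if k then 2 else 1), k) := fun _ _ => rfl
  have ht : ∀ i : Fin 5, p (i, false) + p (i - 1, false) = p (i, true) + p (i - 2, true) := by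
    intro i
    have h1 := h (i, false)
    have h2 := h (i, true)
    rw [h0] at h1 h2
    have e1 := third _ _ _ h1.1 h1.2.1 h1.2.2
    have e2 := third _ _ _ h2.1 h2.2.1 h2.2.2
    have e3 : m (i, true) = m (i, false) := hm (i, false)
    simp only [Bool.false_eq_true, if_false] at e1
    simp only [if_true] at e2
    rw [e1, e2, e3]
  have hd : ∀ i : Fin 5, p (i, false) ≠ p (i - 1, false) := fun i => by
    have h1 := (h (i, false)).2.2
    rw [h0] at h1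
    simpa using h1
  have hd' : ∀ i : Fin 5, p (i, true) ≠ p (i - 2, true) := fun i => by
    have h1 := (h (i, true)).2.2
    rw [h0] at h1
    simpa using h1
  exact pet_dec (p (0, false)) (p (1, false)) (hd 1) (p (2, false)) (hd 2) (p (3, false)) (hd 3)
    (p (4, false)) (hd 4) (hd 0) (p (0, true)) (p (2, true)) (hd' 2) (ht 2) (p (4, true)) (hd' 4)
    (ht 4) (p (1, true)) (hd' 1) (ht 1) (p (3, true)) (hd' 3) (ht 3) (hd' 0) (ht 0)

/-! ### voltage covers -/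

/-- the voltage cover -/
noncomputable def vcov (A : MGraph) (vol : A.D → Equiv.Perm Sh) (hv : ∀ d, vol (A.inv d) = (vol d)⁻¹) :
    MGraph where
  V := A.V × Sh
  D := A.D × Sh
  fV := inferInstance
  fD := inferInstance
  beg d := (A.beg d.1, d.2)
  inv d := (A.inv d.1, vol d.1 d.2)
  inv_inv := by
    rintro ⟨d, s⟩
    simp [hv, A.inv_inv]

/-- the covering map -/
noncomputable def vcovCov (A : MGraph) (vol : A.D → Equiv.Perm Sh)
    (hv : ∀ d, vol (A.inv d) = (vol d)⁻¹) : Cov (vcov A vol hv) A where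
  f := Prod.fst
  F := Prod.fst
  beg _ := rfl
  inv _ := rfl
  bij := by
    rintro ⟨v, i⟩ a ha
    refine ⟨(a, i), ⟨Prod.ext ha rfl, rfl⟩, ?_⟩
    rintro ⟨a', i'⟩ ⟨h1, h2⟩
    have h3 : i' = i := congrArg Prod.snd h1
    exact Prod.ext h2 h3

/-! ### one-edge cuts -/

/-- exactly one edge leaves `X` -/
def One (A : MGraph) (X : A.V → Prop) : Prop := ∃ d, ∀ x, x ∈ bd A X ↔ x = d

theorem three {A : MGraph} (hA : A.Cubic) (e : A.D) : ∃ g h, A.beg g = A.beg e ∧ A.beg h = A.beg e ∧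
    g ≠ e ∧ h ≠ e ∧ g ≠ h ∧ ∀ d, A.beg d = A.beg e → d = e ∨ d = g ∨ d = h := by
  classical
  have h1 := hA (A.beg e)
  rw [Nat.card_eq_fintype_card, Fintype.card_subtype] at h1
  set S := univ.filter fun d => A.beg d = A.beg e with hS
  have he : e ∈ S := by simp [hS]
  have h2 : (S.erase e).card = 2 := by rw [card_erase_of_mem he, h1]
  obtain ⟨g, h, hne, h3⟩ := card_eq_two.1 h2
  have hg : g ∈ S.erase e := by rw [h3]; simp
  have hh : h ∈ S.erase e := by rw [h3]; simp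
  simp only [mem_erase, hS, mem_filter, mem_univ, true_and] at hg hh
  refine ⟨g, h, hg.2, hh.2, hg.1, hh.1, hne, fun d hd => ?_⟩
  by_cases h4 : d = e
  · exact Or.inl h4
  · have h5 : d ∈ S.erase e := by simp [hS, h4, hd]
    rw [h3] at h5
    simpa using Or.inr h5

theorem bd_flip {A : MGraph} {X : A.V → Prop} {d : A.D} :
    d ∈ bd A (fun v => ¬ X v) ↔ A.inv d ∈ bd A X := by
  rw [mem_bd, mem_bd, A.inv_inv]
  tauto

theorem flip {A : MGraph} (Q : A.D → Prop) (hQ : ∀ d, Q d → Q (A.inv d)) (q : A.D)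
    (X : A.V → Prop) (h : ∀ d ∈ bd A X, Q d → d = q ∨ d = A.inv q) (h0 : ∃ d ∈ bd A X, Q d) :
    ∃ Z : A.V → Prop, ¬ Z (A.beg q) ∧ Z (A.beg (A.inv q)) ∧ ∀ d ∈ bd A Z, Q d → d = A.inv q := by
  obtain ⟨d0, hd0, hQ0⟩ := h0
  rcases h d0 hd0 hQ0 with h1 | h1
  · subst h1
    have h2 := mem_bd.1 hd0
    refine ⟨fun v => ¬ X v, fun h => h h2.1, h2.2, fun d hd hQd => ?_⟩
    rw [bd_flip] at hd
    rcases h _ hd (hQ d hQd) with h3 | h3
    · rw [← h3, A.inv_inv]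
    · exfalso
      have h4 := (mem_bd.1 hd).1
      rw [h3] at h4
      exact h2.2 h4
  · subst h1
    have h2 := mem_bd.1 hd0
    rw [A.inv_inv] at h2
    refine ⟨X, h2.2, h2.1, fun d hd hQd => ?_⟩
    rcases h _ hd hQd with h3 | h3
    · exfalso
      have h4 := (mem_bd.1 hd).1
      rw [h3] at h4
      exact h2.2 h4
    · exact h3

/-- the situation at a smallest one-edge cut -/
structure Cut (A : MGraph) where
  hA : A.Cubic
  hS : Simp A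
  hC : Conn A
  S : A.V → Prop
  e : A.D
  he : ∀ x, x ∈ bd A S ↔ x = e
  hmin : ∀ Y : A.V → Prop, One A Y → (∀ v, Y v → S v) → ∀ v, S v → Y v
  g : A.D
  h : A.D
  hg : A.beg g = A.beg e
  hh : A.beg h = A.beg e
  ge : g ≠ e
  hne : h ≠ e
  gh : g ≠ h
  hall : ∀ d, A.beg d = A.beg e → d = e ∨ d = g ∨ d = h
  M : A.D → Prop
  Minv : ∀ d, M d → M (A.inv d)
  Mg : ¬ M g
  Msp : ∀ X : A.V → Prop, (∃ v, X v) → (∃ v, ¬ X v) → ∃ d ∈ bd A X, M d
  Mmin : ∀ M' : A.D → Prop, (∀ d, M' d → M' (A.inv d)) → ¬ M' g →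
    (∀ X : A.V → Prop, (∃ v, X v) → (∃ v, ¬ X v) → ∃ d ∈ bd A X, M' d) → (∀ d, M' d → M d) →
    ∀ d, M d → M' d

theorem exists_cut {A : MGraph} (hA : A.Cubic) (hS : Simp A) (hC : Conn A) (h2 : ¬ Conn2 A) :
    Nonempty (Cut A) := by
  classical
  -- a one-edge cut
  have h1 : ∃ X, One A X := by
    unfold Conn2 at h2
    push Not at h2
    obtain ⟨X, h3, h4, h5⟩ := h2
    obtain ⟨d, hd⟩ := hC X h3 h4
    have h6 : (bd A X).card = 1 := by
      have := card_pos.2 ⟨d, hd⟩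
      omega
    obtain ⟨a, ha⟩ := card_eq_one.1 h6
    exact ⟨X, a, fun x => by rw [ha, mem_singleton]⟩
  obtain ⟨S, hS1, hS2⟩ := exists_minimal_of_wellFoundedLT (One A) h1
  obtain ⟨e, he⟩ := hS1
  obtain ⟨g, h, hg, hh, ge, hne, gh, hall⟩ := three hA e
  have hmin : ∀ Y : A.V → Prop, One A Y → (∀ v, Y v → S v) → ∀ v, S v → Y v :=
    fun Y hY h v hv => hS2 hY h v hv
  have he1 := mem_bd.1 ((he e).2 rfl)
  have hgS : S (A.beg (A.inv g)) := by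
    by_contra hcon
    exact ge ((he g).1 (mem_bd.2 ⟨by rw [hg]; exact he1.1, hcon⟩))
  -- `g` is not a bridge
  have hnb : ∀ X : A.V → Prop, (∃ v, X v) → (∃ v, ¬ X v) → ∃ d ∈ bd A X, d ≠ g ∧ d ≠ A.inv g := by
    intro X hX hX'
    by_contra hcon
    push Not at hcon
    obtain ⟨d0, hd0⟩ := hC X hX hX'
    obtain ⟨Z, hZ1, hZ2, hZ3⟩ := flip (fun _ => True) (fun _ _ => trivial) g X
      (fun d hd _ => by
        by_cases h3 : d = g
        · exact Or.inl h3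
        · exact Or.inr (hcon d hd h3)) ⟨d0, hd0, trivial⟩
    have hW : One A (fun v => Z v ∧ S v) := by
      refine ⟨A.inv g, fun x => ?_⟩
      rw [mem_bd]
      constructor
      · rintro ⟨⟨h3, h4⟩, h5⟩
        have h6 : S (A.beg (A.inv x)) := by
          by_contra h7
          have h8 := (he x).1 (mem_bd.2 ⟨h4, h7⟩)
          rw [h8, ← hg] at h3
          exact hZ1 h3
        refine hZ3 x (mem_bd.2 ⟨h3, fun h7 => h5 ⟨h7, h6⟩⟩) trivial
      · rintro rfl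
        refine ⟨⟨hZ2, hgS⟩, ?_⟩
        rw [A.inv_inv]
        exact fun h3 => hZ1 h3.1
    have h3 := hmin _ hW (fun v hv => hv.2) _ he1.1
    rw [← hg] at h3
    exact hZ1 h3.1
  -- the minimal spanning set
  let P : (A.D → Prop) → Prop := fun M => (∀ d, M d → M (A.inv d)) ∧ ¬ M g ∧
    ∀ X : A.V → Prop, (∃ v, X v) → (∃ v, ¬ X v) → ∃ d ∈ bd A X, M d
  have hP : ∃ M, P M := by
    refine ⟨fun d => d ≠ g ∧ d ≠ A.inv g, ?_, fun h => h.1 rfl, hnb⟩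
    rintro d ⟨h3, h4⟩
    refine ⟨fun h5 => h4 ?_, fun h5 => h3 ?_⟩
    · rw [← h5, A.inv_inv]
    · rw [← A.inv_inv d, h5, A.inv_inv]
  obtain ⟨M, hM1, hM2⟩ := exists_minimal_of_wellFoundedLT P hP
  exact ⟨⟨hA, hS, hC, S, e, he, hmin, g, h, hg, hh, ge, hne, gh, hall, M, hM1.1, hM1.2.1, hM1.2.2,
    fun M' h3 h4 h5 h6 d hd => hM2 (y := M') ⟨h3, h4, h5⟩ h6 d hd⟩⟩

namespace Cut

variable {A : MGraph} (T : Cut A)

theorem Sb : T.S (A.beg T.e) := (mem_bd.1 ((T.he T.e).2 rfl)).1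

theorem Sr : ¬ T.S (A.beg (A.inv T.e)) := (mem_bd.1 ((T.he T.e).2 rfl)).2

theorem Me : T.M T.e := by
  obtain ⟨d, h1, h2⟩ := T.Msp T.S ⟨_, T.Sb⟩ ⟨_, T.Sr⟩
  rwa [(T.he d).1 h1] at h2

theorem Mi (d : A.D) : T.M (A.inv d) ↔ T.M d := by
  refine ⟨fun h => ?_, T.Minv d⟩
  have := T.Minv _ h
  rwa [A.inv_inv] at this

theorem Sg : T.S (A.beg (A.inv T.g)) := by
  by_contra hcon
  exact T.ge ((T.he T.g).1 (mem_bd.2 ⟨by rw [T.hg]; exact T.Sb, hcon⟩))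

theorem Shh : T.S (A.beg (A.inv T.h)) := by
  by_contra hcon
  exact T.hne ((T.he T.h).1 (mem_bd.2 ⟨by rw [T.hh]; exact T.Sb, hcon⟩))

/-- a one-edge cut that does not contain the vertex `b` contains an edge outside of `M` -/
theorem far (C : A.V → Prop) (hC1 : One A C) (hCb : ¬ C (A.beg T.e)) :
    ∃ t, ¬ T.M t ∧ C (A.beg t) ∧ C (A.beg (A.inv t)) ∧ ¬ T.S (A.beg t) := by
  classical
  have hdis : ∀ v, C v → ¬ T.S v := by
    intro v hv hvS
    obtain ⟨d', hd'⟩ := hC1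
    have key : ∀ x, x ∈ bd A (fun v => C v ∧ T.S v) → x = d' := by
      intro x hx
      obtain ⟨⟨h3, h4⟩, h5⟩ := mem_bd.1 hx
      have h6 : T.S (A.beg (A.inv x)) := by
        by_contra h7
        have h8 := (T.he x).1 (mem_bd.2 ⟨h4, h7⟩)
        rw [h8] at h3
        exact hCb h3
      exact (hd' x).1 (mem_bd.2 ⟨h3, fun h7 => h5 ⟨h7, h6⟩⟩)
    obtain ⟨x, hx⟩ := T.hC (fun v => C v ∧ T.S v) ⟨v, hv, hvS⟩ ⟨A.beg T.e, fun h => hCb h.1⟩
    have hx' := key x hx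
    subst hx'
    have h3 := T.hmin _ ⟨x, fun y => ⟨key y, fun h => h ▸ hx⟩⟩ (fun v hv => hv.2) _ T.Sb
    exact hCb h3.1
  by_contra hcon
  push Not at hcon
  have hall : ∀ t, C (A.beg t) → C (A.beg (A.inv t)) → T.M t := by
    intro t h1 h2
    by_contra h3
    exact hdis _ h1 (hcon t h3 h1 h2)
  obtain ⟨C', ⟨⟨d', hd'⟩, hle⟩, hC2⟩ := exists_minimal_of_wellFoundedLT
    (fun X : A.V → Prop => One A X ∧ ∀ v, X v → C v) ⟨C, hC1, fun _ h => h⟩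
  have hd1 := mem_bd.1 ((hd' d').2 rfl)
  obtain ⟨g', h', hg', -, gne, -, -, -⟩ := three T.hA d'
  have hg1 : C' (A.beg g') := by rw [hg']; exact hd1.1
  have hg2 : C' (A.beg (A.inv g')) := by
    by_contra h3
    exact gne ((hd' g').1 (mem_bd.2 ⟨hg1, h3⟩))
  have hMg : T.M g' := hall g' (hle _ hg1) (hle _ hg2)
  -- `M` without `g'` is not spanning
  have hns : ∃ X : A.V → Prop, (∃ v, X v) ∧ (∃ v, ¬ X v) ∧
      ∀ d ∈ bd A X, T.M d → d = g' ∨ d = A.inv g' := by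
    by_contra hno
    push Not at hno
    have h4 := T.Mmin (fun d => T.M d ∧ d ≠ g' ∧ d ≠ A.inv g') ?_ (fun h => T.Mg h.1) ?_
      (fun d h => h.1) g' hMg
    · exact h4.2.1 rfl
    · rintro d ⟨h5, h6, h7⟩
      refine ⟨T.Minv d h5, fun h8 => h7 ?_, fun h8 => h6 ?_⟩
      · rw [← h8, A.inv_inv]
      · rw [← A.inv_inv d, h8, A.inv_inv]
    · intro X hX hX'
      obtain ⟨d, h5, h6, h7, h8⟩ := hno X hX hX'
      exact ⟨d, h5, h6, h7, h8⟩
  obtain ⟨X, hX, hX', hX2⟩ := hns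
  obtain ⟨Z, hZ1, hZ2, hZ3⟩ := flip T.M T.Minv g' X hX2 (T.Msp X hX hX')
  have hW : One A (fun v => C' v ∧ Z v) := by
    refine ⟨A.inv g', fun x => ?_⟩
    rw [mem_bd]
    constructor
    · rintro ⟨⟨h3, h4⟩, h5⟩
      have h6 : C' (A.beg (A.inv x)) := by
        by_contra h7
        have h8 := (hd' x).1 (mem_bd.2 ⟨h3, h7⟩)
        rw [h8, ← hg'] at h4
        exact hZ1 h4
      refine hZ3 x (mem_bd.2 ⟨h4, fun h7 => h5 ⟨h6, h7⟩⟩) (hall x (hle _ h3) (hle _ h6))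
    · rintro rfl
      refine ⟨⟨hg2, hZ2⟩, ?_⟩
      rw [A.inv_inv]
      exact fun h3 => hZ1 h3.2
  have h3 := hC2 (y := fun v => C' v ∧ Z v) ⟨hW, fun v hv => hle v hv.1⟩ (fun v hv => hv.1) _ hg1
  exact hZ1 h3.2

end Cut

end Pool.Agent.Q296.SC
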