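import Pool.Agent.Q296.SC.Basic

set_option autoImplicit false

/-!
# Removing semi-edges, loops and multiple edges; components
-/

namespace Pool.Agent.Q296.SC

open Finset

/-! ### the double cover -/

open Classical in
/-- two copies of `A`, in which the two copies of each semi-edge are joined -/
noncomputable def dbl (A : MGraph) : MGraph where
  V := A.V × Bool
  D := A.D × Bool
  fV := inferInstance
  fD := inferInstance
  beg d := (A.beg d.1, d.2)
  inv d := (A.inv d.1, if A.inv d.1 = d.1 then !d.2 else d.2)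
  inv_inv := by
    rintro ⟨d, i⟩
    by_cases h : A.inv d = d
    · simp [h]
    · have h' : ¬ d = A.inv d := fun h1 => h h1.symm
      simp [h, A.inv_inv, h']

theorem dbl_ne (A : MGraph) (d : (dbl A).D) : (dbl A).inv d ≠ d := by
  obtain ⟨d, i⟩ := d
  intro h
  have h1 : A.inv d = d := congrArg Prod.fst h
  have h2 := congrArg Prod.snd h
  simp [dbl, h1] at h2

/-- the covering map -/
noncomputable def dblCov (A : MGraph) : Cov (dbl A) A where
  f := Prod.fst
  F := Prod.fst
  beg _ := rfl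
  inv _ := rfl
  bij := by
    rintro ⟨v, i⟩ a ha
    refine ⟨(a, i), ⟨?_, rfl⟩, ?_⟩
    · exact Prod.ext ha rfl
    · rintro ⟨a', i'⟩ ⟨h1, h2⟩
      have h3 : i' = i := congrArg Prod.snd h1
      have h4 : a' = a := h2
      rw [h3, h4]

theorem dbl_col {A : MGraph} (h : (dbl A).Colourable) : A.Colourable := by
  obtain ⟨c, h1, h2⟩ := h
  refine ⟨fun d => c (d, false), fun d => ?_, fun d d' hd hne => ?_⟩
  · by_cases hd : A.inv d = d
    · rw [hd]
    · have h3 := h1 (d, false)
      have h4 : (dbl A).inv (d, false) = (A.inv d, false) := by simp [dbl, hd]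
      rw [h4] at h3
      exact h3
  · refine h2 (d, false) (d', false) ?_ ?_
    · exact Prod.ext hd rfl
    · intro h
      exact hne (congrArg Prod.fst h)

/-! ### the simple cover -/

section chain

variable (A : MGraph)

open Classical in
/-- the voltage of a dart -/
noncomputable def al (d : A.D) : A.D → ZMod 3 := fun x =>
  (if x = d then 1 else 0) - (if x = A.inv d then 1 else 0)

open Classical in
theorem al_inv (d : A.D) : al A (A.inv d) = -al A d := by
  funext x
  have e : ∀ y, y = d → ((if x = y then (1 : ZMod 3) else 0) = if x = d then 1 else 0) := by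
    rintro _ rfl
    rfl
  simp only [al, Pi.neg_apply, neg_sub]
  rw [e _ (A.inv_inv d)]

variable {A}

theorem al_self {d : A.D} (hd : A.inv d ≠ d) : al A d d = 1 := by
  have h : d ≠ A.inv d := fun h => hd h.symm
  simp [al, h]

theorem al_ne {d : A.D} (hd : A.inv d ≠ d) : al A d ≠ 0 := by
  intro h
  have h1 := congrFun h d
  rw [al_self hd, Pi.zero_apply] at h1
  exact absurd h1 (by decide)

theorem al_inj {d d' : A.D} (hd : A.inv d ≠ d) (h : al A d = al A d') : d = d' := by
  by_contra hne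
  have h1 := congrFun h d
  rw [al_self hd] at h1
  unfold al at h1
  rw [if_neg hne] at h1
  by_cases h2 : d = A.inv d'
  · rw [if_pos h2] at h1
    exact absurd h1 (by decide)
  · rw [if_neg h2] at h1
    exact absurd h1 (by decide)

/-- the vertices of the voltage graph -/
abbrev KV (A : MGraph) : Type := A.V × (A.D → ZMod 3)

/-- the darts of the voltage graph -/
abbrev KD (A : MGraph) : Type := A.D × (A.D → ZMod 3)

/-- the inverse in the voltage graph -/
noncomputable def kinv (κ : KD A) : KD A := (A.inv κ.1, κ.2 + al A κ.1)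

theorem kinv_kinv (κ : KD A) : kinv (kinv κ) = κ := by
  obtain ⟨d, g⟩ := κ
  simp only [kinv, A.inv_inv, al_inv]
  exact Prod.ext rfl (by simp)

open Classical in
/-- the inverse in the chain graph -/
noncomputable def cinv : A.D ⊕ (A.D × KD A) → A.D ⊕ (A.D × KD A)
  | .inl d => .inr (d, (A.inv d, al A d))
  | .inr (d, κ) => if κ = (A.inv d, al A d) then .inl d else
      if κ = (d, 0) then .inr (A.inv d, (A.inv d, 0)) else .inr (d, kinv κ)

theorem cinv_inl (d : A.D) : cinv (.inl d : A.D ⊕ (A.D × KD A)) = .inr (d, (A.inv d, al A d)) := rfl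

theorem cinv_1 (d : A.D) : cinv (.inr (d, (A.inv d, al A d))) = .inl d := by
  simp [cinv]

theorem cinv_2 (hs : ∀ d, A.inv d ≠ d) (d : A.D) :
    cinv (.inr (d, (d, 0))) = .inr (A.inv d, (A.inv d, 0)) := by
  have h : ¬ ((d, 0) : KD A) = (A.inv d, al A d) := fun h => hs d (congrArg Prod.fst h).symm
  unfold cinv
  simp only
  rw [if_neg h]
  simp

theorem cinv_3 (d : A.D) (κ : KD A) (h1 : κ ≠ (A.inv d, al A d)) (h2 : κ ≠ (d, 0)) :
    cinv (.inr (d, κ)) = .inr (d, kinv κ) := by
  unfold cinv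
  simp only
  rw [if_neg h1, if_neg h2]

theorem kinv_0 (d : A.D) : kinv ((d, 0) : KD A) = (A.inv d, al A d) := by
  simp [kinv]

theorem cinv_cinv (hs : ∀ d, A.inv d ≠ d) (x : A.D ⊕ (A.D × KD A)) : cinv (cinv x) = x := by
  rcases x with d | ⟨d, κ⟩
  · rw [cinv_inl, cinv_1]
  · by_cases h1 : κ = (A.inv d, al A d)
    · rw [h1, cinv_1, cinv_inl]
    · by_cases h2 : κ = (d, 0)
      · rw [h2, cinv_2 hs, cinv_2 hs, A.inv_inv]
      · rw [cinv_3 d κ h1 h2, cinv_3, kinv_kinv]
        · intro h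
          apply h2
          rw [← kinv_kinv κ, h, ← kinv_0, kinv_kinv]
        · intro h
          apply h1
          rw [← kinv_kinv κ, h, kinv_0]

/-- the vertex of a dart in the chain graph -/
def cbeg : A.D ⊕ (A.D × KD A) → A.V ⊕ (A.D × KV A)
  | .inl d => .inl (A.beg d)
  | .inr x => .inr (x.1, (A.beg x.2.1, x.2.2))

/-- the chain graph: each edge of `A` is replaced by two copies of the voltage graph without an
edge -/
noncomputable def chain (hs : ∀ d, A.inv d ≠ d) : MGraph where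
  V := A.V ⊕ (A.D × KV A)
  D := A.D ⊕ (A.D × KD A)
  fV := by classical infer_instance
  fD := by classical infer_instance
  beg := cbeg
  inv := cinv
  inv_inv := cinv_cinv hs

/-- the covering map -/
noncomputable def chainCov (hs : ∀ d, A.inv d ≠ d) : Cov (chain hs) A where
  f := Sum.elim id fun x => x.2.1
  F := Sum.elim id fun x => x.2.1
  beg := by rintro (d | ⟨d, κ⟩) <;> rfl
  inv := by
    rintro (d | ⟨d, κ⟩)
    · rfl
    · show Sum.elim id (fun x : A.D × KD A => x.2.1) (cinv (.inr (d, κ))) = A.inv κ.1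
      by_cases h1 : κ = (A.inv d, al A d)
      · rw [h1, cinv_1]
        simp [A.inv_inv]
      · by_cases h2 : κ = (d, 0)
        · rw [h2, cinv_2 hs]
          simp
        · rw [cinv_3 d κ h1 h2]
          rfl
  bij := by
    rintro (v | ⟨d, v, g⟩) a ha
    · refine ⟨.inl a, ⟨congrArg Sum.inl ha, rfl⟩, ?_⟩
      rintro (a' | ⟨d', κ'⟩) ⟨h1, h2⟩
      · exact congrArg Sum.inl h2
      · exact absurd h1 (by simp [chain, cbeg])
    · refine ⟨.inr (d, (a, g)), ⟨?_, rfl⟩, ?_⟩
      · have ha' : A.beg a = v := ha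
        show Sum.inr (d, (A.beg a, g)) = _
        rw [ha']
      · rintro (a' | ⟨d', a', g'⟩) ⟨h1, h2⟩
        · exact absurd h1 (by simp [chain, cbeg])
        · have h3 : (d', (A.beg a', g')) = (d, (v, g)) := Sum.inr_injective h1
          have h4 : a' = a := h2
          have h5 : d' = d := congrArg Prod.fst h3
          have h6 : g' = g := congrArg (fun x => x.2.2) h3
          rw [h4, h5, h6]

theorem ckey (x : A.D ⊕ (A.D × KD A)) : (∃ d, x = .inl d) ∨ (∃ d, x = .inr (d, (A.inv d, al A d))) ∨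
    (∃ d, x = .inr (d, (d, 0))) ∨ ∃ d κ, κ ≠ (A.inv d, al A d) ∧ κ ≠ (d, 0) ∧ x = .inr (d, κ) := by
  rcases x with d | ⟨d, κ⟩
  · exact Or.inl ⟨d, rfl⟩
  · by_cases h1 : κ = (A.inv d, al A d)
    · exact Or.inr (Or.inl ⟨d, by rw [h1]⟩)
    · by_cases h2 : κ = (d, 0)
      · exact Or.inr (Or.inr (Or.inl ⟨d, by rw [h2]⟩))
      · exact Or.inr (Or.inr (Or.inr ⟨d, κ, h1, h2, rfl⟩))

theorem cbeg_inl (d : A.D) : cbeg (.inl d : A.D ⊕ (A.D × KD A)) = .inl (A.beg d) := rfl

theorem cbeg_inr (d : A.D) (κ : KD A) : cbeg (.inr (d, κ)) = .inr (d, (A.beg κ.1, κ.2)) := rfl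

theorem chain_simp1 (hs : ∀ d, A.inv d ≠ d) (x : A.D ⊕ (A.D × KD A)) : cbeg (cinv x) ≠ cbeg x := by
  rcases ckey x with ⟨d, rfl⟩ | ⟨d, rfl⟩ | ⟨d, rfl⟩ | ⟨d, κ, h1, h2, rfl⟩
  · rw [cinv_inl, cbeg_inl, cbeg_inr]
    simp
  · rw [cinv_1, cbeg_inl, cbeg_inr]
    simp
  · rw [cinv_2 hs, cbeg_inr, cbeg_inr]
    intro h
    exact hs d (congrArg Prod.fst (Sum.inr_injective h))
  · rw [cinv_3 d κ h1 h2, cbeg_inr, cbeg_inr]
    intro h
    have h3 : (kinv κ).2 = κ.2 := congrArg (fun x => x.2.2) (Sum.inr_injective h)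
    simp only [kinv] at h3
    exact al_ne (hs κ.1) (by simpa using h3)

theorem chain_simp2 (hs : ∀ d, A.inv d ≠ d) (x y : A.D ⊕ (A.D × KD A)) (h : cbeg x = cbeg y)
    (h' : cbeg (cinv x) = cbeg (cinv y)) : x = y := by
  rcases ckey x with ⟨d, rfl⟩ | ⟨d, rfl⟩ | ⟨d, rfl⟩ | ⟨d, κ, h1, h2, rfl⟩ <;>
  rcases ckey y with ⟨d', rfl⟩ | ⟨d', rfl⟩ | ⟨d', rfl⟩ | ⟨d', κ', h1', h2', rfl⟩
  · rw [cinv_inl, cinv_inl, cbeg_inr, cbeg_inr] at h'
    obtain rfl : d = d' := congrArg Prod.fst (Sum.inr_injective h')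
    rfl
  · exact absurd h (by simp [cbeg_inl, cbeg_inr])
  · exact absurd h (by simp [cbeg_inl, cbeg_inr])
  · exact absurd h (by simp [cbeg_inl, cbeg_inr])
  · exact absurd h (by simp [cbeg_inl, cbeg_inr])
  · rw [cbeg_inr, cbeg_inr] at h
    obtain rfl : d = d' := congrArg Prod.fst (Sum.inr_injective h)
    rfl
  · rw [cinv_1, cinv_2 hs] at h'
    exact absurd h' (by simp [cbeg_inl, cbeg_inr])
  · rw [cinv_1, cinv_3 d' κ' h1' h2'] at h'
    exact absurd h' (by simp [cbeg_inl, cbeg_inr])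
  · exact absurd h (by simp [cbeg_inl, cbeg_inr])
  · rw [cinv_1, cinv_2 hs] at h'
    exact absurd h' (by simp [cbeg_inl, cbeg_inr])
  · rw [cbeg_inr, cbeg_inr] at h
    obtain rfl : d = d' := congrArg Prod.fst (Sum.inr_injective h)
    rfl
  · rw [cinv_2 hs, cinv_3 d' κ' h1' h2', cbeg_inr, cbeg_inr] at h'
    rw [cbeg_inr, cbeg_inr] at h
    have e1 : d = d' := congrArg Prod.fst (Sum.inr_injective h)
    have e2 : A.inv d = d' := congrArg Prod.fst (Sum.inr_injective h')
    exact absurd (e2.trans e1.symm) (hs d)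
  · exact absurd h (by simp [cbeg_inl, cbeg_inr])
  · rw [cinv_1, cinv_3 d κ h1 h2] at h'
    exact absurd h' (by simp [cbeg_inl, cbeg_inr])
  · rw [cinv_2 hs, cinv_3 d κ h1 h2, cbeg_inr, cbeg_inr] at h'
    rw [cbeg_inr, cbeg_inr] at h
    have e1 : d = d' := congrArg Prod.fst (Sum.inr_injective h)
    have e2 : d = A.inv d' := congrArg Prod.fst (Sum.inr_injective h')
    exact absurd (e2.symm.trans e1) (hs d')
  · rw [cinv_3 d κ h1 h2, cinv_3 d' κ' h1' h2', cbeg_inr, cbeg_inr] at h'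
    rw [cbeg_inr, cbeg_inr] at h
    have e1 : d = d' := congrArg Prod.fst (Sum.inr_injective h)
    have e2 : κ.2 = κ'.2 := congrArg (fun x => x.2.2) (Sum.inr_injective h)
    have e3 : κ.2 + al A κ.1 = κ'.2 + al A κ'.1 := congrArg (fun x => x.2.2) (Sum.inr_injective h')
    rw [e2] at e3
    have e4 := al_inj (hs κ.1) (add_left_cancel e3)
    have e5 : κ = κ' := Prod.ext e4 e2
    rw [e1, e5]

theorem chain_simp (hs : ∀ d, A.inv d ≠ d) : Simp (chain hs) :=
  ⟨chain_simp1 hs, chain_simp2 hs⟩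

theorem chain_bd (hs : ∀ d, A.inv d ≠ d) (d : A.D) (x : A.D ⊕ (A.D × KD A)) :
    ((∃ y, cbeg x = .inr (d, y)) ∧ ¬ ∃ y, cbeg (cinv x) = .inr (d, y)) ↔
      x = .inr (d, (A.inv d, al A d)) ∨ x = .inr (d, (d, 0)) := by
  constructor
  · rcases x with d' | ⟨d', κ⟩
    · rintro ⟨⟨y, hy⟩, -⟩
      exact absurd hy (by simp [cbeg_inl])
    · rintro ⟨⟨y, hy⟩, h3⟩
      rw [cbeg_inr] at hy
      have h4 : d' = d := congrArg Prod.fst (Sum.inr_injective hy)
      subst h4
      by_cases e1 : κ = (A.inv d', al A d')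
      · left
        rw [e1]
      · by_cases e2 : κ = (d', 0)
        · right
          rw [e2]
        · exfalso
          apply h3
          rw [cinv_3 d' κ e1 e2]
          exact ⟨_, rfl⟩
  · rintro (rfl | rfl)
    · refine ⟨⟨_, rfl⟩, ?_⟩
      rw [cinv_1]
      rintro ⟨y, hy⟩
      exact absurd hy (by simp [cbeg_inl])
    · refine ⟨⟨_, rfl⟩, ?_⟩
      rw [cinv_2 hs]
      rintro ⟨y, hy⟩
      exact hs d (congrArg Prod.fst (Sum.inr_injective hy))

theorem chain_col (hA : A.Cubic) (hs : ∀ d, A.inv d ≠ d) (h : (chain hs).Colourable) :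
    A.Colourable := by
  obtain ⟨c, h1, h2⟩ := h
  have hC := (chainCov hs).cubic hA
  have hsC := (chain_simp hs).inv_ne
  have key : ∀ d : A.D, c (.inr (d, (A.inv d, al A d))) = c (.inr (d, (d, 0))) := by
    intro d
    refine two_cut hC hsC ⟨h1, h2⟩ (fun x : A.V ⊕ (A.D × KV A) => ∃ y, x = .inr (d, y)) ?_ ?_
    · intro h
      have h3 : (A.inv d, al A d) = ((d, 0) : KD A) := congrArg Prod.snd (Sum.inr_injective h)
      exact hs d (congrArg Prod.fst h3)
    · intro x
      exact mem_bd.trans (chain_bd hs d x)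
  have key2 : ∀ d : A.D, c (.inl d) = c (.inr (d, (d, 0))) := by
    intro d
    rw [← key d]
    exact (h1 (.inl d)).symm
  refine ⟨fun d => c (.inl d), fun d => ?_, fun d d' hd hne => ?_⟩
  · simp only
    rw [key2, key2]
    have h3 := h1 (.inr (d, (d, 0)))
    have : (chain hs).inv (.inr (d, (d, 0))) = .inr (A.inv d, (A.inv d, 0)) := cinv_2 hs d
    rw [this] at h3
    exact h3
  · exact h2 _ _ (congrArg Sum.inl hd) (fun h => hne (Sum.inl_injective h))

end chain

/-! ### components -/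

/-- the part of `A` on a closed set of vertices -/
noncomputable def res (A : MGraph) (X : A.V → Prop) (hX : ∀ d, X (A.beg d) → X (A.beg (A.inv d))) :
    MGraph where
  V := {v // X v}
  D := {d // X (A.beg d)}
  fV := by classical infer_instance
  fD := by classical infer_instance
  beg d := ⟨A.beg d.1, d.2⟩
  inv d := ⟨A.inv d.1, hX d.1 d.2⟩
  inv_inv d := Subtype.ext (A.inv_inv d.1)

/-- the covering map -/
noncomputable def resCov (A : MGraph) (X : A.V → Prop)
    (hX : ∀ d, X (A.beg d) → X (A.beg (A.inv d))) : Cov (res A X hX) A where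
  f := Subtype.val
  F := Subtype.val
  beg _ := rfl
  inv _ := rfl
  bij := by
    rintro ⟨v, hv⟩ a ha
    refine ⟨⟨a, by rw [ha]; exact hv⟩, ⟨Subtype.ext ha, rfl⟩, ?_⟩
    rintro ⟨a', h'⟩ ⟨-, h2⟩
    exact Subtype.ext h2

/-- joined by a walk -/
def Rch (A : MGraph) : A.V → A.V → Prop :=
  Relation.ReflTransGen fun x y => ∃ d, A.beg d = x ∧ A.beg (A.inv d) = y

theorem Rch.symm {A : MGraph} {u v : A.V} (h : Rch A u v) : Rch A v u := by
  induction h with
  | refl => exact Relation.ReflTransGen.refl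
  | tail _ h1 ih =>
    obtain ⟨d, hd1, hd2⟩ := h1
    exact Relation.ReflTransGen.head ⟨A.inv d, hd2, by rw [A.inv_inv, hd1]⟩ ih

theorem rch_closed {A : MGraph} (u : A.V) (d : A.D) (h : Rch A u (A.beg d)) :
    Rch A u (A.beg (A.inv d)) := Relation.ReflTransGen.tail h ⟨d, rfl, rfl⟩

/-- a graph that is not colourable has a connected component that is not colourable -/
theorem exists_component {A : MGraph} (h : ¬ A.Colourable) :
    ∃ (B : MGraph) (_ : Cov B A), Conn B ∧ ¬ B.Colourable := by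
  classical
  by_contra hcon
  push Not at hcon
  -- all components are colourable
  have hcomp : ∀ u : A.V, (res A (Rch A u) (rch_closed u)).Colourable := by
    intro u
    refine hcon _ (resCov A _ _) ?_
    rintro X ⟨v, hv⟩ ⟨w, hw⟩
    by_contra hno
    push Not at hno
    have hmem : ∀ y (hy : Rch A v.1 y), ∃ hy' : Rch A u y, X ⟨y, hy'⟩ := by
      intro y hy
      induction hy with
      | refl => exact ⟨v.2, hv⟩
      | tail h1 h2 ih =>
        obtain ⟨hy', hX⟩ := ih
        obtain ⟨d, hd1, hd2⟩ := h2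
        subst hd1
        subst hd2
        refine ⟨rch_closed u d hy', ?_⟩
        by_contra hX'
        exact hno ⟨d, hy'⟩ (mem_bd.2 ⟨hX, hX'⟩)
    obtain ⟨h1, h2⟩ := hmem w.1 (v.2.symm.trans w.2)
    exact hw h2
  choose c hc using hcomp
  let st : Setoid A.V := ⟨Rch A, fun _ => Relation.ReflTransGen.refl, fun h => h.symm,
    fun h1 h2 => h1.trans h2⟩
  let rep : A.V → A.V := fun v => (Quotient.mk st v).out
  have hrep : ∀ v, Rch A (rep v) v := fun v => Quotient.exact (Quotient.out_eq (Quotient.mk st v))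
  have hsame : ∀ v w, Rch A v w → rep v = rep w := fun v w h => by
    show (Quotient.mk st v).out = (Quotient.mk st w).out
    rw [Quotient.sound (s := st) h]
  apply h
  refine ⟨fun d => c (rep (A.beg d)) ⟨d, hrep _⟩, fun d => ?_, fun d d' hd hne => ?_⟩
  · have h1 : rep (A.beg (A.inv d)) = rep (A.beg d) :=
      hsame _ _ (Relation.ReflTransGen.single ⟨A.inv d, rfl, by rw [A.inv_inv]⟩)
    have h2 : ∀ (u : A.V) (hu : Rch A u (A.beg (A.inv d))) (u' : A.V) (hu' : Rch A u' (A.beg d)),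
        u = u' → c u ⟨A.inv d, hu⟩ = c u' ⟨d, hu'⟩ := by
      rintro u hu _ hu' rfl
      exact (hc u).1 ⟨d, hu'⟩
    exact h2 _ _ _ _ h1
  · have h2 : ∀ (u : A.V) (hu : Rch A u (A.beg d)) (u' : A.V) (hu' : Rch A u' (A.beg d')),
        u = u' → c u ⟨d, hu⟩ ≠ c u' ⟨d', hu'⟩ := by
      rintro u hu _ hu' rfl
      exact (hc u).2 ⟨d, hu⟩ ⟨d', hu'⟩ (Subtype.ext hd) (fun h => hne (congrArg Subtype.val h))
    exact h2 _ _ _ _ (by rw [hd])

/-- a graph that is not colourable has a simple, connected cover that is not colourable -/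
theorem exists_simple {A : MGraph} (hA : A.Cubic) (h : ¬ A.Colourable) :
    ∃ (B : MGraph) (_ : Cov B A), Conn B ∧ Simp B ∧ ¬ B.Colourable := by
  have h1 : ¬ (dbl A).Colourable := fun h2 => h (dbl_col h2)
  have h2 : ¬ (chain (dbl_ne A)).Colourable := fun h3 =>
    h1 (chain_col ((dblCov A).cubic hA) (dbl_ne A) h3)
  obtain ⟨B, p, hB1, hB2⟩ := exists_component h2
  exact ⟨B, p.comp ((chainCov (dbl_ne A)).comp (dblCov A)), hB1, p.simp (chain_simp _), hB2⟩

end Pool.Agent.Q296.SC
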